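import Pool.Agent.W921.VP.DefsC

/-!
# VP-FAM (helper636): a family of plans gives a perfect family of models
-/

set_option autoImplicit false
set_option linter.style.haveILetI false

namespace Pool.Agent.W636.VP

open FirstOrder Set
open Pool.Agent.W921.VP

section count

variable {J : Type}

/-- a code of a point -/
def enc (f : J → ℕ) : El J → ℕ
  | El.y i => Nat.pair 0 i
  | El.new u v m m' z => Nat.pair 1 (Nat.pair (enc f u) (Nat.pair (enc f v)
      (Nat.pair (f m) (Nat.pair (f m') (f z)))))

theorem enc_inj (f : J → ℕ) (hf : Function.Injective f) : Function.Injective (enc f) := by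
  intro a
  induction a with
  | y i =>
    intro b h
    cases b with
    | y j =>
      simp only [enc, Nat.pair_eq_pair] at h
      rw [h.2]
    | new u v m m' z =>
      simp only [enc, Nat.pair_eq_pair] at h
      exact absurd h.1 (by norm_num)
  | new u v m m' z ihu ihv =>
    intro b h
    cases b with
    | y j =>
      simp only [enc, Nat.pair_eq_pair] at h
      exact absurd h.1 (by norm_num)
    | new u2 v2 m2 m2' z2 =>
      simp only [enc, Nat.pair_eq_pair] at h
      obtain ⟨-, h1, h2, h3, h4, h5⟩ := h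
      rw [ihu h1, ihv h2, hf h3, hf h4, hf h5]

theorem countable_El [Countable J] : Countable (El J) := by
  obtain ⟨f, hf⟩ := exists_injective_nat J
  exact (enc_inj f hf).countable

end count

/-- a predicate of a locally constant function is clopen -/
theorem clopen_of {X V : Type} [TopologicalSpace X] (h : X → V)
    (hh : ∀ v, IsClopen {x | h x = v}) (Q : V → Prop) : IsClopen {x | Q (h x)} := by
  have h1 : ∀ Q : V → Prop, IsOpen {x | Q (h x)} := by
    intro Q
    have : {x | Q (h x)} = ⋃ v ∈ {v | Q v}, {x | h x = v} := by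
      ext x
      simp
    rw [this]
    exact isOpen_biUnion fun v _ => (hh v).isOpen
  refine ⟨⟨?_⟩, h1 Q⟩
  exact h1 fun v => ¬ Q v

theorem clopen_and {X : Type} [TopologicalSpace X] {A B : X → Prop} (hA : IsClopen {x | A x})
    (hB : IsClopen {x | B x}) : IsClopen {x | A x ∧ B x} := hA.inter hB

theorem clopen_or {X : Type} [TopologicalSpace X] {A B : X → Prop} (hA : IsClopen {x | A x})
    (hB : IsClopen {x | B x}) : IsClopen {x | A x ∨ B x} := hA.union hB

theorem clopen_const {X : Type} [TopologicalSpace X] (A : Prop) : IsClopen {_x : X | A} := by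
  by_cases h : A
  · simp only [h, Set.ofPred_true]; exact isClopen_univ
  · simp only [h, Set.ofPred_false]; exact isClopen_empty

section

variable {L : FirstOrder.Language.{0, 0}} {M : Type}

theorem two_eq {K : Set M} {n : ℕ} {s : Fin n → K ⊕ El (Out K)} {a b a0 b0 : El (Out K)}
    (h : Two a b s) (h0 : Two a0 b0 s) : (a = a0 ∧ b = b0) ∨ (a = b0 ∧ b = a0) := by
  obtain ⟨hab, ⟨i, hi⟩, ⟨j, hj⟩, -⟩ := h
  obtain ⟨-, -, -, h4⟩ := h0
  rcases h4 i a hi with h | h <;> rcases h4 j b hj with h' | h'
  · exact absurd (h.trans h'.symm) hab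
  · exact Or.inl ⟨h, h'⟩
  · exact Or.inr ⟨h, h'⟩
  · exact absurd (h.trans h'.symm) hab

theorem pp_congr {K : Set M} (t : Out K → Out K) (p p' : Plan L K) (h1 : p.tyY = p'.tyY)
    (h2 : p.lt = p'.lt) (a b : El (Out K)) (hne : ∀ i j, ¬ (a = El.y i ∧ b = El.y j)) :
    pp p t a b = pp p' t a b := by
  obtain ⟨ty1, pY1, P1, lt1⟩ := p
  obtain ⟨ty2, pY2, P2, lt2⟩ := p'
  simp only at h1 h2
  subst h1 h2
  cases a with
  | y i =>
    cases b with
    | y j => exact absurd ⟨rfl, rfl⟩ (hne i j)
    | new u' w' m m' z => rfl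
  | new u w m m' z =>
    cases b with
    | y j => rfl
    | new u' w' m1 m1' z' => rfl

theorem pp_clopen {K : Set M} (t : Out K → Out K) (pl : (ℕ → Bool) → Plan L K)
    (hc : ∀ x x', (pl x).tyY = (pl x').tyY ∧ (pl x).lt = (pl x').lt)
    (hp : ∀ i j v, IsClopen {x | (pl x).pY i j = v}) (a b : El (Out K)) (v : Out K × Out K) :
    IsClopen {x | pp (pl x) t a b = v} := by
  have hconst : ∀ g : (ℕ → Bool) → Out K × Out K, (∀ x x', g x = g x') →
      IsClopen {x | g x = v} := by
    intro g hg
    have : {x | g x = v} = {_x : ℕ → Bool | g (fun _ => false) = v} := by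
      ext x
      simp only [mem_ofPred_eq]
      rw [hg x (fun _ => false)]
    rw [this]
    exact clopen_const _
  cases a with
  | y i =>
    cases b with
    | y j => exact hp i j v
    | new u' w' m m' z =>
      exact hconst _ fun x x' => pp_congr t _ _ (hc x x').1 (hc x x').2 _ _
        (fun i j h => by cases h.2)
  | new u w m m' z =>
    exact hconst _ fun x x' => pp_congr t _ _ (hc x x').1 (hc x x').2 _ _
      (fun i j h => by cases h.1)

theorem inCopy_iff (S : L.Structure M) {K : Set M} (p p' : Plan L K) (h : p.tyY = p'.tyY)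
    (q : Cp (Out K)) {n : ℕ} (s : Fin n → K ⊕ El (Out K)) :
    InCopy S p q s ↔ InCopy S p' q s := by
  have h1 : Good S p q ↔ Good S p' q := by
    constructor
    · rintro ⟨a, b, c, d⟩
      exact ⟨a, b, by rw [← h]; exact c, by rw [← h]; exact d⟩
    · rintro ⟨a, b, c, d⟩
      exact ⟨a, b, by rw [h]; exact c, by rw [h]; exact d⟩
  unfold InCopy
  rw [h1]

theorem rel_clopen (S : L.Structure M) {K : Set M} (t : Out K → Out K)
    (pl : (ℕ → Bool) → Plan L K)
    (hc : ∀ x x', (pl x).tyY = (pl x').tyY ∧ (pl x).lt = (pl x').lt)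
    (hp : ∀ i j v, IsClopen {x | (pl x).pY i j = v})
    (hP : ∀ (n : ℕ) (R : L.Relations n) (s : Fin n → K ⊕ El (Out K)),
      IsClopen {x | (pl x).P n R s})
    {n : ℕ} (R : L.Relations n) (s : Fin n → K ⊕ El (Out K)) :
    IsClopen {x | RelN S (pl x) t R s} := by
  classical
  let x0 : ℕ → Bool := fun _ => false
  have hI : ∀ x q, InCopy S (pl x) q s ↔ InCopy S (pl x0) q s :=
    fun x q => inCopy_iff S _ _ (hc x x0).1 q s
  have hty : ∀ x, (pl x).tyY = (pl x0).tyY := fun x => (hc x x0).1
  have h0 : ∀ x, RelN S (pl x) t R s ↔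
      ((∃ q, InCopy S (pl x0) q s ∧ ∃ ρ : El (Out K) → Out K,
        (∀ i e, s i = Sum.inr e → Role q e (ρ e)) ∧ S.RelMap R (fun i => ev ρ (s i))) ∨
      ((¬ ∃ q, InCopy S (pl x0) q s) ∧
        ((One s ∧ S.RelMap R (fun i => ev (ty (pl x0).tyY) (s i))) ∨
         (∃ a b, Two a b s ∧
            S.RelMap R (fun i => ev (fun e => if e = a then (pp (pl x) t a b).1
              else (pp (pl x) t a b).2) (s i))) ∨
         (¬ One s ∧ (¬ ∃ a b, Two a b s) ∧ (pl x).P n R s)))) := by
    intro x
    unfold RelN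
    simp only [hI, hty]
  have h1 : {x | RelN S (pl x) t R s} = {x |
      ((∃ q, InCopy S (pl x0) q s ∧ ∃ ρ : El (Out K) → Out K,
        (∀ i e, s i = Sum.inr e → Role q e (ρ e)) ∧ S.RelMap R (fun i => ev ρ (s i))) ∨
      ((¬ ∃ q, InCopy S (pl x0) q s) ∧
        ((One s ∧ S.RelMap R (fun i => ev (ty (pl x0).tyY) (s i))) ∨
         (∃ a b, Two a b s ∧
            S.RelMap R (fun i => ev (fun e => if e = a then (pp (pl x) t a b).1
              else (pp (pl x) t a b).2) (s i))) ∨
         (¬ One s ∧ (¬ ∃ a b, Two a b s) ∧ (pl x).P n R s))))} := by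
    ext x
    exact h0 x
  rw [h1]
  refine clopen_or (clopen_const _) (clopen_and (clopen_const _) (clopen_or (clopen_const _)
    (clopen_or ?_ (clopen_and (clopen_const _) (clopen_and (clopen_const _) (hP n R s))))))
  have hQ : ∀ a b : El (Out K), IsClopen {x | S.RelMap R (fun i => ev (fun e => if e = a then
      (pp (pl x) t a b).1 else (pp (pl x) t a b).2) (s i))} := by
    intro a b
    exact clopen_of (fun x => pp (pl x) t a b) (pp_clopen t pl hc hp a b)
      (fun v => S.RelMap R (fun i => ev (fun e => if e = a then v.1 else v.2) (s i)))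
  by_cases h2 : ∃ a b, Two a b s
  · obtain ⟨a0, b0, h3⟩ := h2
    have h3' : Two b0 a0 s := ⟨h3.1.symm, h3.2.2.1, h3.2.1, fun i e h => (h3.2.2.2 i e h).symm⟩
    have h4 : {x | ∃ a b, Two a b s ∧
            S.RelMap R (fun i => ev (fun e => if e = a then (pp (pl x) t a b).1
              else (pp (pl x) t a b).2) (s i))} =
        {x | S.RelMap R (fun i => ev (fun e => if e = a0 then (pp (pl x) t a0 b0).1
              else (pp (pl x) t a0 b0).2) (s i)) ∨
            S.RelMap R (fun i => ev (fun e => if e = b0 then (pp (pl x) t b0 a0).1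
              else (pp (pl x) t b0 a0).2) (s i))} := by
      ext x
      simp only [mem_ofPred_eq]
      constructor
      · rintro ⟨a, b, h5, h6⟩
        rcases two_eq h5 h3 with ⟨rfl, rfl⟩ | ⟨rfl, rfl⟩
        · exact Or.inl h6
        · exact Or.inr h6
      · rintro (h6 | h6)
        · exact ⟨a0, b0, h3, h6⟩
        · exact ⟨b0, a0, h3', h6⟩
    rw [h4]
    exact clopen_or (hQ a0 b0) (hQ b0 a0)
  · have h4 : {x | ∃ a b, Two a b s ∧
            S.RelMap R (fun i => ev (fun e => if e = a then (pp (pl x) t a b).1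
              else (pp (pl x) t a b).2) (s i))} = ∅ := by
      ext x
      simp only [mem_ofPred_eq, mem_empty_iff_false, iff_false]
      rintro ⟨a, b, h5, -⟩
      exact h2 ⟨a, b, h5⟩
    rw [h4]
    exact isClopen_empty

end

theorem task (hg : S_GEN) (hc : S_CC) (ht : S_CTB) : S_FAM := by
  intro L _ hL T M S K t hB pl hOk hcon hpY hP k hrig
  haveI := hB.cnt
  haveI : Countable (El (Out K)) := countable_El
  haveI : Countable (K ⊕ El (Out K)) := inferInstance
  haveI : Infinite (K ⊕ El (Out K)) :=
    Infinite.of_injective (fun i : ℕ => (Sum.inr (El.y i) : K ⊕ El (Out K)))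
      (fun i j h => by simpa using h)
  refine hc L hL inferInstance T (K ⊕ El (Out K)) inferInstance inferInstance
    (fun x => NStr S (pl x) t) (fun x => hg L T M S K t hB (pl x) (hOk x)) ?_ ?_
  · intro n R s
    exact rel_clopen S t pl hcon hpY hP R s
  · refine ht L (K ⊕ El (Out K)) inferInstance (fun x => NStr S (pl x) t) k
      (fun i => Sum.inr (El.y (i : ℕ))) ?_
    intro x x' e he hy
    refine hrig x x' e he ?_
    intro i hi
    exact hy ⟨i, hi⟩

end Pool.Agent.W636.VP
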